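import Pool.Agent.H71.CO.Targets

/-!
# Board cqo_modules, row SIB
The points with infinite colour classes can be replaced by copies of any linear order.
-/

set_option autoImplicit false

open Set

namespace Pool.Agent.H4.CO

open Pool.Agent.H71.CO

theorem lin_not {V : Type} {lt : V → V → Prop} (h : Lin lt) {a b : V} (hab : a ≠ b) :
    lt b a ↔ ¬ lt a b :=
  ⟨fun h1 h2 => h.irr _ (h.tra _ _ _ h1 h2), fun h1 => (h.tot a b hab).resolve_left h1⟩

/-- the points in the copies -/
abbrev UU {L : Type} (s : ℕ → ℕ → L) (I : Type) : Type := {a : ℕ // ¬ (Cls s a).Finite} × I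

section basic

variable {L : Type} {s : ℕ → ℕ → L}

/-- the reversed label -/
noncomputable def rv (s : ℕ → ℕ → L) (l : L) : L := by
  classical
  exact if h : ∃ a b, s a b = l then s h.choose_spec.choose h.choose else l

theorem rv_eq (hs : Stb s) (a b : ℕ) : rv s (s a b) = s b a := by
  have h : ∃ a' b', s a' b' = s a b := ⟨a, b, rfl⟩
  unfold rv
  rw [dif_pos h]
  exact hs.sw _ _ _ _ h.choose_spec.choose_spec

theorem cls_self (a : ℕ) : a ∈ Cls s a := rfl

theorem cls_congr {a b : ℕ} (h : s a a = s b b) : Cls s a = Cls s b := by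
  unfold Cls
  rw [h]

theorem cls_of_mem {a b : ℕ} (h : a ∈ Cls s b) : Cls s a = Cls s b := cls_congr h

/-- the second point determines the colour -/
theorem col2 (hs : Stb s) {a b a' b' : ℕ} (h : s a b = s a' b') : s b b = s b' b' :=
  hs.dg _ _ _ _ (hs.sw _ _ _ _ h)

variable {I : Type}

/-- the number of neighbours -/
noncomputable def cp (u : UU s I) (l : L) : ℕ∞ := {b | s u.1 b = l}.encard

theorem cp_eq (hs : Stb s) (u : UU s I) {a : ℕ} (ha : a ∈ Cls s u.1) (l : L) :
    cp u l = {b | s a b = l}.encard :=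
  hs.cnt u.1 a (Eq.symm ha) l

variable {lt : ℕ → ℕ → Prop} {li : I → I → Prop}

/-- the order of the points in the copies -/
def od (lt : ℕ → ℕ → Prop) (li : I → I → Prop) (u v : UU s I) : Prop :=
  lt u.1 v.1 ∨ (u.1 = v.1 ∧ li u.2 v.2)

theorem od_lin (h : Lin lt) (hl : Lin li) : Lin (od (s := s) lt li) where
  irr := by
    rintro a (h1 | h1)
    · exact h.irr _ h1
    · exact hl.irr _ h1.2
  tra := by
    rintro a b c (h1 | ⟨h1, h2⟩) (h3 | ⟨h3, h4⟩)
    · exact Or.inl (h.tra _ _ _ h1 h3)
    · exact Or.inl (by rw [← h3]; exact h1)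
    · exact Or.inl (by rw [h1]; exact h3)
    · exact Or.inr ⟨h1.trans h3, hl.tra _ _ _ h2 h4⟩
  tot := by
    intro a b hab
    by_cases h1 : a.1 = b.1
    · have h2 : a.2 ≠ b.2 := fun h2 => hab (Prod.ext h1 h2)
      rcases hl.tot _ _ h2 with h3 | h3
      · exact Or.inl (Or.inr ⟨h1, h3⟩)
      · exact Or.inr (Or.inr ⟨h1.symm, h3⟩)
    · rcases h.tot a.1 b.1 (fun h2 => h1 (Subtype.ext h2)) with h3 | h3
      · exact Or.inl (Or.inl h3)
      · exact Or.inr (Or.inl h3)

/-- the labels which are allowed -/
def AA (lt : ℕ → ℕ → Prop) (li : I → I → Prop) (u v : UU s I) : Set L :=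
  {l | ∃ a b, a ∈ Cls s u.1 ∧ b ∈ Cls s v.1 ∧ a ≠ b ∧ s a b = l ∧ (lt a b ↔ od lt li u v)}

theorem AA_rv (hso : SO s lt) (hl : Lin li) {u v : UU s I} (huv : u ≠ v) {l : L}
    (h : l ∈ AA lt li u v) : rv s l ∈ AA lt li v u ∧ rv s (rv s l) = l ∧ 1 ≤ cp u l := by
  obtain ⟨a, b, ha, hb, hab, rfl, ho⟩ := h
  have hs := hso.stb
  refine ⟨⟨b, a, hb, ha, hab.symm, (rv_eq hs a b).symm, ?_⟩, ?_, ?_⟩
  · rw [lin_not hso.lin hab, lin_not (od_lin hso.lin hl) huv, ho]
  · rw [rv_eq hs, rv_eq hs]
  · rw [cp_eq hs u ha]
    exact Set.one_le_encard_iff_nonempty.mpr ⟨b, rfl⟩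

/-- the second hypothesis, one direction -/
theorem hyp2a (hFRL : T_FRL) (hso : SO s lt) {u v : UU s I} (huv : u ≠ v) (ho : od lt li u v) :
    (AA lt li u v).Infinite ∨ ∃ l ∈ AA lt li u v, cp u l = ⊤ ∧ cp v (rv s l) = ⊤ := by
  by_cases hinf : (AA lt li u v).Infinite
  · exact Or.inl hinf
  right
  rw [Set.not_infinite] at hinf
  have hs := hso.stb
  obtain ⟨a0, b0, h0, ha0, hb0⟩ : ∃ a0 b0, lt a0 b0 ∧ a0 ∈ Cls s u.1 ∧ b0 ∈ Cls s v.1 := by
    by_cases h1 : u.1 = v.1
    · obtain ⟨x, hx, y, hy, hxy⟩ := (Set.Infinite.nontrivial u.1.2 : (Cls s u.1).Nontrivial)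
      rcases hso.lin.tot x y hxy with h2 | h2
      · exact ⟨x, y, h2, hx, by rw [← h1]; exact hy⟩
      · exact ⟨y, x, h2, hy, by rw [← h1]; exact hx⟩
    · rcases ho with h2 | h2
      · exact ⟨u.1, v.1, h2, cls_self _, cls_self _⟩
      · exact absurd h2.1 h1
  have ea := cls_of_mem ha0
  have eb := cls_of_mem hb0
  have hfin : {l | ∃ a b, lt a b ∧ a ∈ Cls s a0 ∧ b ∈ Cls s b0 ∧ s a b = l}.Finite := by
    refine hinf.subset ?_
    rintro l ⟨a, b, hab, ha, hb, rfl⟩
    refine ⟨a, b, by rw [← ea]; exact ha, by rw [← eb]; exact hb, ?_, rfl, ?_⟩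
    · intro h
      rw [h] at hab
      exact hso.lin.irr _ hab
    · exact ⟨fun _ => ho, fun _ => hab⟩
  obtain ⟨a, b, hab, ha, hb, h1, h2⟩ := hFRL L s lt hso a0 b0 h0 (by rw [ea]; exact u.1.2)
    (by rw [eb]; exact v.1.2) hfin
  rw [ea] at ha
  rw [eb] at hb
  refine ⟨s a b, ⟨a, b, ha, hb, ?_, rfl, ⟨fun _ => ho, fun _ => hab⟩⟩, ?_, ?_⟩
  · intro h
    rw [h] at hab
    exact hso.lin.irr _ hab
  · rw [cp_eq hs u ha, Set.encard_eq_top_iff]
    exact h1
  · rw [cp_eq hs v hb, rv_eq hs, Set.encard_eq_top_iff]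
    exact h2

theorem hyp2 (hFRL : T_FRL) (hso : SO s lt) (hl : Lin li) (u v : UU s I) (huv : u ≠ v) :
    (AA lt li u v).Infinite ∨ ∃ l ∈ AA lt li u v, cp u l = ⊤ ∧ cp v (rv s l) = ⊤ := by
  rcases (od_lin hso.lin hl).tot u v huv with ho | ho
  · exact hyp2a hFRL hso huv ho
  · rcases hyp2a hFRL hso huv.symm ho with h1 | ⟨l, h1, h2, h3⟩
    · left
      intro hfin
      refine h1 ((hfin.image (rv s)).subset ?_)
      intro l hl'
      have h4 := AA_rv hso hl huv.symm hl'
      exact ⟨rv s l, h4.1, h4.2.1⟩
    · right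
      have h4 := AA_rv hso hl huv.symm h1
      refine ⟨rv s l, h4.1, h3, ?_⟩
      rw [h4.2.1]
      exact h2

theorem hyp3 (hABV : T_ABV) (hso : SO s lt) (i0 : I) (u v : UU s I) (l : L)
    (h : l ∈ AA lt li u v) : {w | w ≠ u ∧ l ∈ AA lt li u w}.Infinite := by
  classical
  obtain ⟨a, b, ha, hb, hab, rfl, ho⟩ := h
  have ea := cls_of_mem ha
  have eb := cls_of_mem hb
  let f : ℕ → UU s I := fun n => if h : ¬ (Cls s n).Finite then (⟨n, h⟩, i0) else u
  have key : ∀ B : Set ℕ, B.Infinite → (∀ n ∈ B, n ∈ Cls s b ∧ n ≠ u.1 ∧ (lt u.1 n ↔ lt a b)) →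
      {w | w ≠ u ∧ s a b ∈ AA lt li u w}.Infinite := by
    intro B hB hB'
    have hf : ∀ n ∈ B, ∃ h : ¬ (Cls s n).Finite, f n = (⟨n, h⟩, i0) := by
      intro n hn
      have h1 : ¬ (Cls s n).Finite := by
        rw [cls_of_mem (hB' n hn).1, eb]
        exact v.1.2
      exact ⟨h1, dif_pos h1⟩
    have hinj : Set.InjOn f B := by
      intro n hn m hm hnm
      obtain ⟨h1, h2⟩ := hf n hn
      obtain ⟨h3, h4⟩ := hf m hm
      rw [h2, h4] at hnm
      exact congrArg (fun w : UU s I => (w.1 : ℕ)) hnm
    refine (hB.image hinj).mono ?_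
    rintro _ ⟨n, hn, rfl⟩
    obtain ⟨h1, h2⟩ := hf n hn
    obtain ⟨h3, h4, h5⟩ := hB' n hn
    refine ⟨?_, a, b, ha, ?_, hab, rfl, ?_⟩
    · rw [h2]
      intro h6
      exact h4 (congrArg (fun w : UU s I => (w.1 : ℕ)) h6)
    · rw [h2]
      change s b b = s n n
      exact Eq.symm h3
    · rw [← h5, h2]
      constructor
      · intro h6
        exact Or.inl h6
      · rintro (h6 | ⟨h6, -⟩)
        · exact h6
        · exact absurd (congrArg (fun w : {a : ℕ // ¬ (Cls s a).Finite} => (w : ℕ)) h6).symm h4
  by_cases hlt : lt a b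
  · have h1 := (hABV L s lt hso a b hlt (by rw [ea]; exact u.1.2) (by rw [eb]; exact v.1.2)).1
      u.1 (Eq.symm ha)
    refine key _ h1 ?_
    rintro n ⟨h2, h3⟩
    refine ⟨h3, ?_, ⟨fun _ => hlt, fun _ => h2⟩⟩
    intro h4
    rw [h4] at h2
    exact hso.lin.irr _ h2
  · have hlt' : lt b a := (lin_not hso.lin hab).mpr hlt
    have h1 := (hABV L s lt hso b a hlt' (by rw [eb]; exact v.1.2) (by rw [ea]; exact u.1.2)).2
      u.1 (Eq.symm ha)
    refine key _ h1 ?_
    rintro n ⟨h2, h3⟩
    refine ⟨h3, ?_, ⟨fun h4 => ?_, fun h4 => absurd h4 hlt⟩⟩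
    · intro h4
      rw [h4] at h2
      exact hso.lin.irr _ h2
    · exact absurd (hso.lin.tra _ _ _ h2 h4) (hso.lin.irr _)

end basic

section main

variable {L : Type} {s : ℕ → ℕ → L} {I : Type}

open Classical in
/-- the labelling -/
noncomputable def EE (s : ℕ → ℕ → L) (lab : UU s I → UU s I → L) : UV s I → UV s I → L
  | .inl a, .inl b => s a b
  | .inl a, .inr w => s a w.1
  | .inr v, .inl b => s v.1 b
  | .inr v, .inr w => if v = w then s v.1 v.1 else lab v w

variable {lt : ℕ → ℕ → Prop} {li : I → I → Prop} {lab : UU s I → UU s I → L}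

theorem EE_diag (u : UV s I) : EE s lab u u = s (pr s u) (pr s u) := by
  rcases u with a | v
  · rfl
  · exact if_pos rfl

theorem EE_self (v : UU s I) : EE s lab (.inr v) (.inr v) = s v.1 v.1 := if_pos rfl

theorem EE_ne {v w : UU s I} (h : v ≠ w) : EE s lab (.inr v) (.inr w) = lab v w := if_neg h

/-- every label is realised by points with the right colours -/
theorem EE_real (hlab : ∀ u v : UU s I, u ≠ v → lab u v ∈ AA lt li u v) (u v : UV s I) :
    ∃ a b, EE s lab u v = s a b ∧ s a a = s (pr s u) (pr s u) ∧ s b b = s (pr s v) (pr s v) := by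
  rcases u with a | u <;> rcases v with b | v
  · exact ⟨a, b, rfl, rfl, rfl⟩
  · exact ⟨a, v.1, rfl, rfl, rfl⟩
  · exact ⟨u.1, b, rfl, rfl, rfl⟩
  · by_cases h : u = v
    · subst h
      exact ⟨u.1, u.1, EE_self u, rfl, rfl⟩
    · obtain ⟨a, b, ha, hb, -, h1, -⟩ := hlab u v h
      exact ⟨a, b, by rw [EE_ne h, h1], ha, hb⟩

theorem EE_eq (hs : Stb s) (hlab : ∀ u v : UU s I, u ≠ v → lab u v ∈ AA lt li u v)
    (u v : UV s I) (a : ℕ) (h : EE s lab u v = s a a) : u = v := by
  rcases u with x | u <;> rcases v with y | v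
  · exact congrArg Sum.inl (Subtype.ext (hs.eq _ _ _ h.symm))
  · exfalso
    have h1 : (x : ℕ) = v.1 := hs.eq _ _ _ (Eq.symm h)
    have h2 := v.1.2
    rw [← h1] at h2
    exact h2 x.2
  · exfalso
    have h1 : (u.1 : ℕ) = y := hs.eq _ _ _ (Eq.symm h)
    have h2 := u.1.2
    rw [h1] at h2
    exact h2 y.2
  · by_cases h1 : u = v
    · rw [h1]
    · exfalso
      obtain ⟨a', b', -, -, hab, h2, -⟩ := hlab u v h1
      rw [EE_ne h1, ← h2] at h
      exact hab (hs.eq _ _ _ h.symm)

/-- the counts -/
theorem EE_cnt (hso : SO s lt) (hlab : ∀ u v : UU s I, u ≠ v → lab u v ∈ AA lt li u v)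
    (hcap : ∀ (u : UU s I) (l : L), (∃ v, v ≠ u ∧ l ∈ AA lt li u v) →
      {v | v ≠ u ∧ lab u v = l}.encard = cp u l) (i0 : I) (u : UV s I) (l : L) :
    {v | EE s lab u v = l}.encard = {b | s (pr s u) b = l}.encard := by
  classical
  have hs := hso.stb
  by_cases hex : ∃ b0, s (pr s u) b0 = l
  · obtain ⟨b0, hb0⟩ := hex
    -- the colour of the second point
    have hcol : ∀ v, EE s lab u v = l → s (pr s v) (pr s v) = s b0 b0 := by
      intro v hv
      obtain ⟨a, b, h1, h2, h3⟩ := EE_real hlab u v
      rw [← h3]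
      exact col2 hs (h1.symm.trans (hv.trans hb0.symm))
    by_cases hfin : (Cls s b0).Finite
    · -- finite class
      have hset : {v | EE s lab u v = l} =
          (fun b : ℕ => if h : (Cls s b).Finite then (Sum.inl ⟨b, h⟩ : UV s I) else u) ''
            {b | s (pr s u) b = l} := by
        ext v
        constructor
        · intro hv
          have h1 := hcol v hv
          rcases v with b | w
          · refine ⟨b, ?_, dif_pos b.2⟩
            rcases u with x | u
            · exact hv
            · exact hv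
          · exfalso
            have h2 : Cls s w.1 = Cls s b0 := cls_congr h1
            exact w.1.2 (by rw [h2]; exact hfin)
        · rintro ⟨b, hb, rfl⟩
          have h1 : (Cls s b).Finite := by
            have h2 : s b b = s b0 b0 := col2 hs ((show s (pr s u) b = l from hb).trans hb0.symm)
            rw [cls_congr h2]
            exact hfin
          change EE s lab u (if h : (Cls s b).Finite then (Sum.inl ⟨b, h⟩ : UV s I) else u) = l
          rw [dif_pos h1]
          rcases u with x | u
          · exact hb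
          · exact hb
      rw [hset]
      refine Set.InjOn.encard_image ?_
      intro b hb b' hb' hbb
      have h1 : ∀ b, b ∈ {b | s (pr s u) b = l} → (Cls s b).Finite := by
        intro b hb
        have h2 : s b b = s b0 b0 := col2 hs ((show s (pr s u) b = l from hb).trans hb0.symm)
        rw [cls_congr h2]
        exact hfin
      change (if h : (Cls s b).Finite then (Sum.inl ⟨b, h⟩ : UV s I) else u) =
        (if h : (Cls s b').Finite then (Sum.inl ⟨b', h⟩ : UV s I) else u) at hbb
      rw [dif_pos (h1 b hb), dif_pos (h1 b' hb')] at hbb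
      exact congrArg Subtype.val (Sum.inl_injective hbb)
    · -- infinite class
      rcases u with x | u
      · -- the first point has a finite class
        have hx := x.2
        have hinf : {b | s x b = l}.Infinite := by
          have h1 : ∀ b' ∈ Cls s b0, ∃ c ∈ Cls s x, s c b' = l := by
            intro b' hb'
            have h2 := hs.cnt b0 b' (Eq.symm hb') (s b0 x)
            have h3 : 1 ≤ {c | s b0 c = s b0 x}.encard :=
              Set.one_le_encard_iff_nonempty.mpr ⟨x, rfl⟩
            rw [h2] at h3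
            obtain ⟨c, hc⟩ := Set.one_le_encard_iff_nonempty.mp h3
            refine ⟨c, col2 hs (show s b' c = s b0 x from hc), ?_⟩
            rw [← hb0]
            exact hs.sw _ _ _ _ hc
          choose! f hf1 hf2 using h1
          obtain ⟨c, hc, hc2⟩ : ∃ c ∈ Cls s x, {b' ∈ Cls s b0 | f b' = c}.Infinite := by
            by_contra hcon
            push Not at hcon
            refine hfin ((hx.biUnion fun c hc => hcon c hc).subset ?_)
            intro b' hb'
            exact Set.mem_biUnion (hf1 b' hb') ⟨hb', rfl⟩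
          have h3 : {b | s c b = l}.Infinite := by
            refine hc2.mono ?_
            rintro b' ⟨hb', rfl⟩
            exact hf2 b' hb'
          have h4 := hs.cnt c x hc l
          rw [Set.encard_eq_top_iff.mpr h3] at h4
          exact Set.encard_eq_top_iff.mp h4.symm
        have hL : {v | EE s lab (Sum.inl x) v = l}.Infinite := by
          have hf : ∀ b ∈ {b | s x b = l}, ¬ (Cls s b).Finite := by
            intro b hb
            have h2 : s b b = s b0 b0 := col2 hs ((show s x b = l from hb).trans hb0.symm)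
            rw [cls_congr h2]
            exact hfin
          have hinj : Set.InjOn (fun b : ℕ => if h : ¬ (Cls s b).Finite then
              (Sum.inr (⟨b, h⟩, i0) : UV s I) else Sum.inl x) {b | s x b = l} := by
            intro b hb b' hb' hbb
            change (if h : ¬ (Cls s b).Finite then (Sum.inr (⟨b, h⟩, i0) : UV s I)
                else Sum.inl x) =
              (if h : ¬ (Cls s b').Finite then (Sum.inr (⟨b', h⟩, i0) : UV s I)
                else Sum.inl x) at hbb
            rw [dif_pos (hf b hb), dif_pos (hf b' hb')] at hbb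
            exact congrArg (fun w : UU s I => (w.1 : ℕ)) (Sum.inr_injective hbb)
          refine (hinf.image hinj).mono ?_
          rintro _ ⟨b, hb, rfl⟩
          change EE s lab (Sum.inl x) (if h : ¬ (Cls s b).Finite then
              (Sum.inr (⟨b, h⟩, i0) : UV s I) else Sum.inl x) = l
          rw [dif_pos (hf b hb)]
          exact hb
        rw [Set.encard_eq_top_iff.mpr hL]
        exact (Set.encard_eq_top_iff.mpr hinf).symm
      · -- the first point has an infinite class
        by_cases hd : (u.1 : ℕ) = b0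
        · have hl : l = s u.1 u.1 := by
            rw [← hb0, ← hd]
            rfl
          have h1 : {v | EE s lab (Sum.inr u) v = l} = {Sum.inr u} := by
            ext v
            constructor
            · intro hv
              exact (EE_eq hs hlab _ _ u.1 ((show EE s lab (Sum.inr u) v = l from hv).trans hl)).symm
            · intro hv
              rw [Set.mem_singleton_iff.mp hv]
              exact (EE_self u).trans hl.symm
          have h2 : {b | s (pr s (Sum.inr u : UV s I)) b = l} = {(u.1 : ℕ)} := by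
            ext b
            constructor
            · intro hb
              have h3 : s u.1 b = s u.1 u.1 := (show s u.1 b = l from hb).trans hl
              exact (hs.eq _ _ _ h3.symm).symm
            · intro hb
              rw [Set.mem_singleton_iff.mp hb]
              exact hl.symm
          rw [h1, h2, Set.encard_singleton, Set.encard_singleton]
        · have h1 : {v | EE s lab (Sum.inr u) v = l} = Sum.inr '' {v | v ≠ u ∧ lab u v = l} := by
            ext v
            constructor
            · intro hv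
              have h2 := hcol v hv
              rcases v with b | w
              · exfalso
                have h3 : Cls s b = Cls s b0 := cls_congr h2
                exact hfin (by rw [← h3]; exact b.2)
              · by_cases hw : u = w
                · exfalso
                  subst hw
                  have h3 : s u.1 u.1 = s u.1 b0 := (EE_self u).symm.trans
                    ((show EE s lab (Sum.inr u) (Sum.inr u) = l from hv).trans hb0.symm)
                  exact hd (hs.eq _ _ _ h3)
                · exact ⟨w, ⟨Ne.symm hw, (EE_ne hw).symm.trans hv⟩, rfl⟩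
            · rintro ⟨w, ⟨hw, hw2⟩, rfl⟩
              exact (EE_ne (Ne.symm hw)).trans hw2
          rw [h1, Set.InjOn.encard_image (Sum.inr_injective.injOn), hcap u l]
          · rfl
          · refine ⟨(⟨b0, hfin⟩, i0), ?_, u.1, b0, cls_self _, cls_self _, hd, hb0, ?_⟩
            · intro h2
              exact hd (congrArg (fun w : UU s I => (w.1 : ℕ)) h2).symm
            · constructor
              · intro h2
                exact Or.inl h2
              · rintro (h2 | ⟨h2, -⟩)
                · exact h2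
                · exact absurd (congrArg Subtype.val h2) hd
  · -- the label does not occur
    have h1 : {v | EE s lab u v = l} = ∅ := by
      ext v
      simp only [Set.mem_empty_iff_false, iff_false]
      intro hv
      obtain ⟨a, b, h1, h2, -⟩ := EE_real hlab u v
      have h3 : 1 ≤ {b | s a b = l}.encard :=
        Set.one_le_encard_iff_nonempty.mpr ⟨b, h1.symm.trans hv⟩
      rw [hs.cnt a (pr s u) h2 l] at h3
      obtain ⟨c, hc⟩ := Set.one_le_encard_iff_nonempty.mp h3
      exact hex ⟨c, hc⟩
    have h2 : {b | s (pr s u) b = l} = ∅ := by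
      ext b
      simp only [Set.mem_empty_iff_false, iff_false]
      intro hb
      exact hex ⟨b, hb⟩
    rw [h1, h2, Set.encard_empty, Set.encard_empty]

end main

/-- SIB -/
theorem pf_SIB (hABV : T_ABV) (hFRL : T_FRL) (hLAB : T_LAB) : T_SIB := by
  classical
  intro L _ s lt hso I _ li hl hI
  obtain ⟨i0⟩ := hI
  have hs := hso.stb
  haveI : Nonempty L := ⟨s 0 0⟩
  obtain ⟨lab, h1, h2⟩ := hLAB (UU s I) L (AA lt li) (rv s) cp
    (fun u v l huv h => AA_rv hso hl huv h) (hyp2 hFRL hso hl)
    (fun u v l _ h => hyp3 hABV hso i0 u v l h)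
  have hlab : ∀ u v : UU s I, u ≠ v → lab u v ∈ AA lt li u v := fun u v h => (h1 u v h).1
  refine ⟨EE s lab, ⟨?_, ?_, ?_, ?_, ?_⟩, ?_⟩
  · intro u v
    obtain ⟨a, b, h3, -, -⟩ := EE_real hlab u v
    exact ⟨a, b, h3⟩
  · intro u v a b h
    rcases u with x | u <;> rcases v with y | v
    · exact hs.sw _ _ _ _ h
    · exact hs.sw _ _ _ _ h
    · exact hs.sw _ _ _ _ h
    · by_cases huv : u = v
      · subst huv
        rw [EE_self] at h ⊢
        exact hs.sw _ _ _ _ h
      · rw [EE_ne huv] at h
        rw [EE_ne (Ne.symm huv), (h1 u v huv).2, h, rv_eq hs]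
  · intro u v a b h
    obtain ⟨a', b', h3, h4, -⟩ := EE_real hlab u v
    rw [EE_diag, ← h4]
    exact hs.dg _ _ _ _ (h3.symm.trans h)
  · intro u v a h
    exact EE_eq hs hlab u v a h
  · intro u a h l
    rw [EE_cnt hso hlab h2 i0 u l]
    rw [EE_diag] at h
    exact hs.cnt _ _ h l
  · intro u v a b h
    rcases u with x | u <;> rcases v with y | v
    · exact hso.cmp _ _ _ _ h
    · exact hso.cmp _ _ _ _ h
    · exact hso.cmp _ _ _ _ h
    · by_cases huv : u = v
      · subst huv
        rw [EE_self] at h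
        have h3 := hso.cmp _ _ _ _ h
        constructor
        · rintro (h4 | ⟨-, h4⟩)
          · exact absurd h4 (hso.lin.irr _)
          · exact absurd h4 (hl.irr _)
        · intro h4
          exact absurd (h3.mpr h4) (hso.lin.irr _)
      · obtain ⟨a', b', -, -, -, h3, h4⟩ := hlab u v huv
        rw [EE_ne huv, ← h3] at h
        rw [← hso.cmp _ _ _ _ h, h4]
        exact Iff.rfl

end Pool.Agent.H4.CO
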